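import Mathlib
import Pool.Agent.Helper27K9.MSG.Main
import Pool.Agent.Helper27K9.MSG.Affine

set_option autoImplicit false

/-!
# The Erdős–Turán conjecture for bases closed under a bilinear operation

`rep A h n` is the number `r_{A,h}(n)` of the multisets of `h` elements of `A` with sum `n`.

Let `A ⊆ ℕ` be closed under the operation `x * y = α x y + β x + γ y + δ`, where `α`, `β`, `γ`, `δ`
are nonnegative integers such that `x * y` depends on both variables (`α ≥ 1`, or `β ≥ 1` and
`γ ≥ 1`).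

(a) If `α = 0` or `β ≠ γ` or `α δ ≠ β ^ 2 - β` (for instance for `x + 2 y`, `x y + 1`, `x y + x`) and
`A` is infinite (it need not be a basis), then for every `h ≥ 2` there is `c > 0` with
`r_{A,h}(n) ≥ n ^ c` for infinitely many `n`.

(b) In the remaining case (for instance `x y` or `x y + x + y`), if `A` is an asymptotic basis of
order `h ≥ 2`, `α` divides `(h - 1) β` (no condition for `α = 1`), and `β ≥ 1` or `0 ∉ A`, then there
is `c > 0` with `r_{A,h}(n) ≥ c √(log n)` for infinitely many `n`.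

Method.  (a) Two of the affine maps `x ↦ x * y`, or two of the maps `x ↦ y * x`, with `y ∈ A`, do not
commute, and their two products are self-maps `w x + e₁`, `w x + e₂` of `A` with `e₁ ≠ e₂`, which
generate large symmetric subsets of `A`.  (b) `α (x * y) + β = (α x + β) (α y + β)`, and the descent
for multiplicatively closed sets of the helper file `Helper27K9.MSG.Core` is applied to `α A + β`.
-/

namespace Pool.Agent.Results.MP_d5a1e1_nt.BilinearOperations

open Filter

/-- The number of the multisets of `h` elements of `A` with sum `n`. -/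
noncomputable def rep (A : Set ℕ) (h n : ℕ) : ℕ :=
  {R : Multiset ℕ | R.card = h ∧ R.sum = n ∧ ∀ x ∈ R, x ∈ A}.ncard

/-- `A` is an asymptotic basis of order `h`: all but finitely many natural numbers are sums of `h`
elements of `A`. -/
def IsBasis (A : Set ℕ) (h : ℕ) : Prop :=
  {n : ℕ | ¬ ∃ R : Multiset ℕ, R.card = h ∧ R.sum = n ∧ ∀ x ∈ R, x ∈ A}.Finite

lemma rep_eq (A : Set ℕ) (h n : ℕ) : rep A h n = Pool.Agent.Helper27K9.MSG.rep A h n := rfl

lemma eventually_of_basis {A : Set ℕ} {h : ℕ} (hA : IsBasis A h) :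
    ∀ᶠ n in atTop, (Pool.Agent.Helper27K9.MSG.reps A h n).Nonempty := by
  obtain ⟨b, hb⟩ := hA.bddAbove
  filter_upwards [eventually_gt_atTop b] with n hn
  by_contra hcon
  have : n ∈ {n : ℕ | ¬ ∃ R : Multiset ℕ, R.card = h ∧ R.sum = n ∧ ∀ x ∈ R, x ∈ A} := by
    rintro ⟨R, hR⟩
    exact hcon ⟨R, hR⟩
  have := hb this
  omega

/-- The Erdős–Turán conjecture for sets closed under a bilinear operation. -/
theorem result (h α β γ δ : ℕ) (A : Set ℕ) (hh : 2 ≤ h) (hdep : 1 ≤ α ∨ (1 ≤ β ∧ 1 ≤ γ))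
    (hcl : ∀ x ∈ A, ∀ y ∈ A, α * x * y + β * x + γ * y + δ ∈ A) :
    (A.Infinite → (α = 0 ∨ β ≠ γ ∨ α * δ + β ≠ β ^ 2) →
      ∃ c : ℝ, 0 < c ∧ ∃ᶠ n : ℕ in atTop, (n : ℝ) ^ c ≤ rep A h n) ∧
    (1 ≤ α → β = γ → α * δ + β = β ^ 2 → α ∣ (h - 1) * β → (1 ≤ β ∨ 0 ∉ A) → IsBasis A h →
      ∃ c : ℝ, 0 < c ∧ ∃ᶠ n : ℕ in atTop, c * Real.sqrt (Real.log n) ≤ rep A h n) := by
  refine ⟨?_, ?_⟩
  · intro hinf hne
    by_cases hα0 : α = 0
    · subst hα0
      obtain ⟨hβ, hγ⟩ : 1 ≤ β ∧ 1 ≤ γ := by
        rcases hdep with hdep | hdep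
        · omega
        · exact hdep
      refine Pool.Agent.Helper27K9.MSG.linear_op h β γ δ hh hβ hγ A hinf (fun x hx y hy => ?_)
      have := hcl x hx y hy
      convert this using 1
      ring
    have hα : 1 ≤ α := by omega
    replace hne : β ≠ γ ∨ α * δ + β ≠ β ^ 2 := by
      rcases hne with hne | hne
      · exact absurd hne hα0
      · exact hne
    refine Pool.Agent.Helper27K9.MSG.bilinear_noncomm h α β γ δ hh hα A hinf hcl ?_
    rintro ⟨h1, h2⟩
    rcases hne with h3 | h3
    · exact h3 h1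
    · exact h3 h2
  · intro hα hβγ hδ hd h0 hbasis
    subst hβγ
    set φ : ℕ → ℕ := fun a => α * a + β with hφ
    have hmul : ∀ x y : ℕ, φ x * φ y = φ (α * x * y + β * x + β * y + δ) := by
      intro x y
      simp only [hφ]
      have : α * (α * x * y + β * x + β * y + δ) + β =
          α * (α * x * y + β * x + β * y) + (α * δ + β) := by ring
      rw [this, hδ]
      ring
    have hclB : ∀ x ∈ φ '' A, ∀ y ∈ φ '' A, x * y ∈ φ '' A := by
      rintro _ ⟨x, hx, rfl⟩ _ ⟨y, hy, rfl⟩
      rw [hmul]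
      exact ⟨_, hcl x hx y hy, rfl⟩
    have hB0 : 0 ∉ φ '' A := by
      rintro ⟨x, hx, hx0⟩
      simp only [hφ] at hx0
      rcases h0 with h0 | h0
      · omega
      · apply h0
        have h1 : α * x = 0 := by omega
        rcases Nat.mul_eq_zero.1 h1 with h2 | h2
        · omega
        · rw [← h2]
          exact hx
    obtain ⟨ε, hε, L₀, hmain⟩ := Pool.Agent.Helper27K9.MSG.main h hh A (eventually_of_basis hbasis)
      α β hα hd (insert 1 (φ '' A)) {1} (Set.mem_insert _ _)
      (by
        rintro x (rfl | hx) y (rfl | hy)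
        · left; rfl
        · right; rw [one_mul]; exact hy
        · right; rw [mul_one]; exact hx
        · right; exact hclB x hx y hy)
      (by
        rintro m (rfl | hm) b hb
        · rw [one_mul]; exact hb
        · exact hclB m hm b hb)
      hB0
      (by
        intro b hb
        exact ⟨1, rfl, b, Or.inr hb, (one_mul b).symm⟩)
    refine Pool.Agent.Helper27K9.MSG.freq_sqrt A h α β hα ε hε L₀ ?_
    intro L hL K hK hKε
    refine hmain L hL K hK ?_
    have h1 : (({1} ∩ Set.Icc 1 (2 ^ L) : Set ℕ).ncard : ℝ) ≤ 1 := by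
      have : ({1} ∩ Set.Icc 1 (2 ^ L) : Set ℕ).ncard ≤ ({1} : Set ℕ).ncard :=
        Set.ncard_le_ncard Set.inter_subset_left (Set.finite_singleton 1)
      rw [Set.ncard_singleton] at this
      exact_mod_cast this
    calc (K : ℝ) * (({1} ∩ Set.Icc 1 (2 ^ L) : Set ℕ).ncard : ℝ) ≤ K * 1 :=
          mul_le_mul_of_nonneg_left h1 (by positivity)
      _ ≤ ε * L := by rw [mul_one]; exact hKε

end Pool.Agent.Results.MP_d5a1e1_nt.BilinearOperations
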