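import Pool.Agent.Helper39K9.ET.Main
import Pool.Agent.Helper39K9.ET.Rank

/-!
# MP_d5a1e1_nt: section ranks and supports of Mahler sequences

`rep A h n` is the number `r_{A,h}(n)` of the multisets of `h` elements of `A` with sum `n`.

For a function `f` on `ℕ` with values in a field let `secRank f q` be the dimension of the space
spanned by its `q` sections `n ↦ f (q n + u)`, `0 ≤ u < q`.  We show that a function whose support is
contained in a set `A` with bounded `r_{A,h}`, and which has at least `N ^ δ` nonzero values below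
`N`, has section ranks as large as a power of `N`.  Section ranks of Mahler sequences grow
logarithmically, so this applies to them: the Erdős–Turán conjecture holds, in a quantitative form,
for all bases that contain the support of a Mahler sequence with at least `N ^ δ` nonzero values
below `N`, and in particular for the bases which are finite unions of supports of Mahler sequences.

The growth of bases (`thickAll_of_basis`) and the comparison of tuples and multisets (`RF_le`) in
`Pool.Agent.TH314.ETH` are from the starting files.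
-/

set_option autoImplicit false

open Filter Polynomial

namespace Pool.Agent.Results.MP_d5a1e1_nt.MahlerSupports

/-- `r_{A,h}(n)`: the number of the multisets of `h` elements of `A` with sum `n`. -/
noncomputable def rep (A : Set ℕ) (h n : ℕ) : ℕ :=
  Set.ncard {s : Multiset ℕ | Multiset.card s = h ∧ (∀ a ∈ s, a ∈ A) ∧ s.sum = n}

/-- `A` is an asymptotic basis of order `h`. -/
def IsBasis (A : Set ℕ) (h : ℕ) : Prop :=
  ∃ n₀ : ℕ, ∀ n : ℕ, n₀ ≤ n → ∃ s : Multiset ℕ, Multiset.card s = h ∧ (∀ a ∈ s, a ∈ A) ∧ s.sum = n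

/-- The number of `n < N` with `f n ≠ 0`. -/
noncomputable def count {F : Type} [Field F] (f : ℕ → F) (N : ℕ) : ℕ := {n | n < N ∧ f n ≠ 0}.ncard

/-- The dimension of the space spanned by the sections `n ↦ f (q n + u)`, `u < q`. -/
noncomputable def secRank {F : Type} [Field F] (f : ℕ → F) (q : ℕ) : ℕ :=
  Module.finrank F (Submodule.span F (Set.range fun u : Fin q => fun n : ℕ => f (q * n + u)))

/-- The power series `f(z) = ∑ f(n) z^n` satisfies a Mahler equation
`P_0(z) f(z) + P_1(z) f(z^b) + ... + P_d(z) f(z^(b^d)) = 0` with polynomials `P_k` that are not all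
zero. -/
def IsMahler {F : Type} [Field F] (b : ℕ) (f : ℕ → F) : Prop :=
  ∃ (d : ℕ) (P : ℕ → F[X]), (∃ k ≤ d, P k ≠ 0) ∧
    ∑ k ∈ Finset.range (d + 1), (P k : PowerSeries F) *
      PowerSeries.subst (PowerSeries.X ^ (b ^ k) : PowerSeries F) (PowerSeries.mk f) = 0

lemma count_eq {F : Type} [Field F] (f : ℕ → F) (N : ℕ) :
    count f N = Pool.Agent.Helper39K9.ET.cnt f N := by
  classical
  unfold count Pool.Agent.Helper39K9.ET.cnt
  rw [← Set.ncard_coe_finset]
  congr 1
  ext n
  simp

/-- **Section ranks, Mahler sequences and the Erdős–Turán conjecture.**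

(1) For all `h ≥ 2`, `K` and `δ > 0` there are `η > 0` and `m₀` such that for every set `A` with
`r_{A,h} ≤ K`, all `b ≥ 2`, `m ≥ m₀` and every function `f` with values in a field that vanishes on
`[0, b ^ m) \ A` and has at least `b ^ (δ m)` nonzero values below `b ^ m`, one of the section ranks
of `f` modulo `b ^ k`, `k ≤ m`, is at least `b ^ (η m)`.

(2) If `f` is a `b`-Mahler sequence over a field then for all `h ≥ 2` and `K` there is `D` such that
`f` has at most `exp (D sqrt (log N log log N))` nonzero values below `N`, for all large `N`,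
provided its support is contained in a set `A` with `r_{A,h} ≤ K`.

(3) If a `b`-Mahler sequence `f` over a field has at least `N ^ δ` nonzero values below `N` for
arbitrarily large `N`, for some `δ > 0`, then for every `h ≥ 2` there is `c > 0` such that, for every
set `A` that contains the support of `f`, the maximum of `r_{A,h}` on `[0, N]` is at least
`c (log N / (log log N) ^ 2) ^ κ` for infinitely many `N`, where `κ = log_2 binom(h, ⌊h / 2⌋)`.

(4) If an asymptotic basis `A` of order `h ≥ 2` is, up to a subset with `o(N ^ (1/h))` elements below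
`N`, a finite union of supports of Mahler sequences (the fields and the bases `b i` may be
different), then for some `c > 0` the maximum of `r_{A,h}` on `[0, N]` is at least
`c (log N / (log log N) ^ 2) ^ κ` for all large `N`. -/
theorem result :
    (∀ (h K : ℕ) (δ : ℝ), 2 ≤ h → 0 < δ → ∃ η : ℝ, 0 < η ∧ ∃ m₀ : ℕ,
      ∀ b m : ℕ, 2 ≤ b → m₀ ≤ m → ∀ (F : Type) [Field F] (f : ℕ → F) (A : Set ℕ),
        (∀ n < b ^ m, f n ≠ 0 → n ∈ A) → (∀ n, rep A h n ≤ K) →
        ((b : ℝ) ^ m) ^ δ ≤ count f (b ^ m) → ∃ k ≤ m, ((b : ℝ) ^ m) ^ η ≤ secRank f (b ^ k)) ∧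
    (∀ (F : Type) [Field F] (b : ℕ) (f : ℕ → F), 2 ≤ b → IsMahler b f → ∀ h K : ℕ, 2 ≤ h →
      ∃ D : ℝ, ∀ᶠ N : ℕ in atTop, ∀ A : Set ℕ, (∀ n, f n ≠ 0 → n ∈ A) → (∀ n, rep A h n ≤ K) →
        (count f N : ℝ) ≤ Real.exp (D * Real.sqrt (Real.log N * Real.log (Real.log N)))) ∧
    (∀ (F : Type) [Field F] (b : ℕ) (f : ℕ → F), 2 ≤ b → IsMahler b f →
      ∀ δ : ℝ, 0 < δ → (∃ᶠ N : ℕ in atTop, (N : ℝ) ^ δ ≤ count f N) → ∀ h : ℕ, 2 ≤ h →
      ∃ c : ℝ, 0 < c ∧ ∀ A : Set ℕ, (∀ n, f n ≠ 0 → n ∈ A) → ∃ᶠ N : ℕ in atTop, ∃ n ≤ N,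
        c * (Real.log N / Real.log (Real.log N) ^ 2) ^ Real.logb 2 (h.choose (h / 2)) ≤
          rep A h n) ∧
    (∀ (h : ℕ) (A : Set ℕ), 2 ≤ h → IsBasis A h → ∀ (s : ℕ) (F : Fin s → Type)
      [∀ i, Field (F i)] (b : Fin s → ℕ) (f : (i : Fin s) → ℕ → F i),
      (∀ i, 2 ≤ b i ∧ IsMahler (b i) (f i) ∧ ∀ n, f i n ≠ 0 → n ∈ A) →
      (∀ ε : ℝ, 0 < ε → ∀ᶠ N : ℕ in atTop,
        ({n : ℕ | n ∈ A ∧ n < N ∧ ∀ i, f i n = 0}.ncard : ℝ) ^ h ≤ ε * N) →
      ∃ c : ℝ, 0 < c ∧ ∀ᶠ N : ℕ in atTop, ∃ n ≤ N,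
        c * (Real.log N / Real.log (Real.log N) ^ 2) ^ Real.logb 2 (h.choose (h / 2)) ≤
          rep A h n) := by
  refine ⟨?_, ?_, ?_, ?_⟩
  · intro h K δ hh hδ
    obtain ⟨η, hη, m₀, H⟩ := Pool.Agent.Helper39K9.ET.rank_power hh K hδ
    refine ⟨η, hη, m₀, fun b m hb hm F _ f A hA hK hc => ?_⟩
    rw [count_eq] at hc
    exact H b m hb hm F f A hA hK hc
  · intro F _ b f hb hf h K hh
    obtain ⟨C, hC⟩ := Pool.Agent.Helper39K9.ET.secRank_mahler hb hf
    obtain ⟨D, _, H⟩ := Pool.Agent.Helper39K9.ET.growth_N hb hC hh K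
    refine ⟨D, ?_⟩
    filter_upwards [H] with N hN A hA hK
    rw [count_eq]
    exact hN A hA hK
  · intro F _ b f hb hf δ hδ hcount h hh
    obtain ⟨C, hC⟩ := Pool.Agent.Helper39K9.ET.secRank_mahler hb hf
    exact Pool.Agent.Helper39K9.ET.rep_frequently hb hC hh hδ
      (hcount.mono fun N hN => by rw [count_eq] at hN; exact hN)
  · intro h A hh hA s F _ b f hf hthin
    exact Pool.Agent.Helper39K9.ET.basis_union hh hA s F b (fun i => (hf i).1) f
      (fun i => (hf i).2.2)
      (fun i => Pool.Agent.Helper39K9.ET.secRank_mahler (hf i).1 (hf i).2.1) hthin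

end Pool.Agent.Results.MP_d5a1e1_nt.MahlerSupports
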