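import Mathlib
import Pool.Agent.Helper27K9.MSG.Main

set_option autoImplicit false

/-!
# The Erdős–Turán conjecture for bases generated by a multiplicative semigroup

`rep A h n` is the number `r_{A,h}(n)` of the multisets of `h` elements of `A` with sum `n`.

Let `M` be a multiplicative semigroup of positive integers with `1 ∈ M`, let `A` be invariant under
multiplication by the elements of `M`, and let every element of `A` be of the form `c m` with
`c ∈ C`, `m ∈ M`, where `|C ∩ [1, x]| = o(log x)`, at least for a sequence of values of `x`.  (Examples: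
`A` is closed under multiplication, `C = {1}` and `M = A ∪ {1}`; `A` is an ideal of a semigroup `M`; `A`
is the union of the sets `c M`, `c ∈ C`.)  If `0 ∉ A` and `A` is an asymptotic basis of order `h ≥ 2`
then `r_{A,h}` is unbounded.  If `C` is finite then there is `c > 0` such that
`r_{A,h}(n) ≥ c √(log n)` for infinitely many `n`.

Method.  Choose for every large `X ∈ A` a representation as a sum of `h` elements of `A` and let
`t ≤ X / 2` be its smallest part.  Elements `X = c m` with the same `c` and with different ratios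
`t / X` have a common multiple in `c M` to which all their representations can be transferred, and
there they are different.  On the other hand `t ∈ A`, so that one can repeat the step, and after at
most `log₂ X` steps `X` is determined by a bounded number and a multiset of ratios.  Since `A` has at
least `c x ^ (1/h)` elements up to `x`, there are at least `ε log x` different ratios for `X ≤ x`.
-/

namespace Pool.Agent.Results.MP_d5a1e1_nt.MultiplicativeSemigroups

open Filter

/-- The number of the multisets of `h` elements of `A` with sum `n`. -/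
noncomputable def rep (A : Set ℕ) (h n : ℕ) : ℕ :=
  {R : Multiset ℕ | R.card = h ∧ R.sum = n ∧ ∀ x ∈ R, x ∈ A}.ncard

/-- `A` is an asymptotic basis of order `h`: all but finitely many natural numbers are sums of `h`
elements of `A`. -/
def IsBasis (A : Set ℕ) (h : ℕ) : Prop :=
  {n : ℕ | ¬ ∃ R : Multiset ℕ, R.card = h ∧ R.sum = n ∧ ∀ x ∈ R, x ∈ A}.Finite

lemma rep_eq (A : Set ℕ) (h n : ℕ) : rep A h n = Pool.Agent.Helper27K9.MSG.rep A h n := rfl

lemma eventually_of_basis {A : Set ℕ} {h : ℕ} (hA : IsBasis A h) :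
    ∀ᶠ n in atTop, (Pool.Agent.Helper27K9.MSG.reps A h n).Nonempty := by
  obtain ⟨b, hb⟩ := hA.bddAbove
  filter_upwards [eventually_gt_atTop b] with n hn
  by_contra hcon
  have : n ∈ {n : ℕ | ¬ ∃ R : Multiset ℕ, R.card = h ∧ R.sum = n ∧ ∀ x ∈ R, x ∈ A} := by
    rintro ⟨R, hR⟩
    exact hcon ⟨R, hR⟩
  have := hb this
  omega

/-- The Erdős–Turán conjecture for the bases which are invariant under a multiplicative semigroup `M`
and contained in `C M` with a sparse set `C`. -/
theorem result (h : ℕ) (hh : 2 ≤ h) (M C A : Set ℕ) (hM1 : 1 ∈ M) (hMM : ∀ x ∈ M, ∀ y ∈ M, x * y ∈ M)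
    (hMA : ∀ m ∈ M, ∀ a ∈ A, m * a ∈ A) (hAC : ∀ a ∈ A, ∃ c ∈ C, ∃ m ∈ M, a = c * m)
    (h0 : 0 ∉ A) (hbasis : IsBasis A h) :
    ((∀ η : ℝ, 0 < η → ∃ᶠ x : ℕ in atTop, ((C ∩ Set.Icc 1 x).ncard : ℝ) ≤ η * Real.log x) →
      ∀ T : ℕ, ∃ n, T ≤ rep A h n) ∧
    (C.Finite → ∃ c : ℝ, 0 < c ∧ ∃ᶠ n : ℕ in atTop, c * Real.sqrt (Real.log n) ≤ rep A h n) := by
  have e0 : (fun a => 1 * a + 0) '' A = A := by simp
  have hMB : ∀ m ∈ M, ∀ b ∈ (fun a => 1 * a + 0) '' A, m * b ∈ (fun a => 1 * a + 0) '' A := by
    rw [e0]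
    exact hMA
  have hB0 : 0 ∉ (fun a => 1 * a + 0) '' A := by rw [e0]; exact h0
  have hBC : ∀ b ∈ (fun a => 1 * a + 0) '' A, ∃ c ∈ C, ∃ m ∈ M, b = c * m := by
    rw [e0]
    exact hAC
  obtain ⟨ε, hε, L₀, hmain⟩ := Pool.Agent.Helper27K9.MSG.main h hh A (eventually_of_basis hbasis) 1 0
    le_rfl (one_dvd _) M C hM1 hMM hMB hB0 hBC
  refine ⟨?_, ?_⟩
  · intro hsparse T
    set K : ℕ := max T 1 with hK
    have hK1 : 1 ≤ K := le_max_right _ _
    have hKr : (0 : ℝ) < K := by exact_mod_cast hK1
    obtain ⟨x, hx1, hx2⟩ := ((hsparse (ε / (2 * K)) (by positivity)).and_eventually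
      (eventually_ge_atTop (2 ^ (L₀ + 1)))).exists
    set L : ℕ := Nat.log 2 x with hL
    have hx0 : x ≠ 0 := by
      have : 0 < 2 ^ (L₀ + 1) := by positivity
      omega
    have hLx : 2 ^ L ≤ x := Nat.pow_log_le_self 2 hx0
    have hxL : x < 2 ^ (L + 1) := Nat.lt_pow_succ_log_self (by norm_num) x
    have hLL : L₀ + 1 ≤ L := by
      by_contra hcon
      have : 2 ^ (L + 1) ≤ 2 ^ (L₀ + 1) := Nat.pow_le_pow_right (by norm_num) (by omega)
      omega
    have hmono : ((C ∩ Set.Icc 1 (2 ^ L)).ncard : ℝ) ≤ ((C ∩ Set.Icc 1 x).ncard : ℝ) := by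
      have : (C ∩ Set.Icc 1 (2 ^ L)).ncard ≤ (C ∩ Set.Icc 1 x).ncard := by
        refine Set.ncard_le_ncard ?_ ((Set.finite_Icc 1 x).subset Set.inter_subset_right)
        exact Set.inter_subset_inter_right _ (Set.Icc_subset_Icc_right hLx)
      exact_mod_cast this
    have hlog : Real.log x ≤ 2 * L := by
      have h1 : Real.log x ≤ Real.log ((2 : ℝ) ^ (L + 1)) := by
        apply Real.log_le_log
        · exact_mod_cast Nat.pos_of_ne_zero hx0
        · exact_mod_cast hxL.le
      rw [Real.log_pow] at h1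
      have h2 : Real.log 2 < 1 := by
        have := Real.log_two_lt_d9
        linarith
      have h3 : 0 < Real.log 2 := Real.log_pos (by norm_num)
      have h4 : (1 : ℝ) ≤ L := by
        have : 1 ≤ L := by omega
        exact_mod_cast this
      push_cast at h1
      nlinarith
    obtain ⟨n, hn, -, -⟩ := hmain L (by omega) K hK1 (by
      calc (K : ℝ) * ((C ∩ Set.Icc 1 (2 ^ L)).ncard : ℝ) ≤ K * (ε / (2 * K) * (2 * L)) := by
            apply mul_le_mul_of_nonneg_left _ hKr.le
            refine hmono.trans (hx1.trans ?_)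
            exact mul_le_mul_of_nonneg_left hlog (by positivity)
        _ = ε * L := by field_simp)
    exact ⟨n, le_trans (le_max_left T 1) hn⟩
  · intro hfin
    set g : ℕ := C.ncard + 1 with hg
    have hgr : (0 : ℝ) < g := by positivity
    refine Pool.Agent.Helper27K9.MSG.freq_sqrt A h 1 0 le_rfl (ε / g) (by positivity) L₀ ?_
    intro L hL K hK hKε
    refine hmain L hL K hK ?_
    have h1 : ((C ∩ Set.Icc 1 (2 ^ L)).ncard : ℝ) ≤ g := by
      have : (C ∩ Set.Icc 1 (2 ^ L)).ncard ≤ C.ncard := Set.ncard_le_ncard Set.inter_subset_left hfin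
      have : (C ∩ Set.Icc 1 (2 ^ L)).ncard ≤ g := by omega
      exact_mod_cast this
    calc (K : ℝ) * ((C ∩ Set.Icc 1 (2 ^ L)).ncard : ℝ) ≤ (ε / g * L) * g :=
          mul_le_mul hKε h1 (by positivity) (by positivity)
      _ = ε * L := by field_simp

end Pool.Agent.Results.MP_d5a1e1_nt.MultiplicativeSemigroups
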