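import Pool.Agent.Helper68K9.ET.Auto

/-!
# MP_d5a1e1_nt: representation functions modulo a prime are not automatic

`rep A h n` is the number `r_{A,h}(n)` of multisets of `h` elements of `A` with sum `n`, and
`ordRep A j n` is the number `R_{A,j}(n)` of `j`-tuples of elements of `A` with sum `n`.

Let `A` be an asymptotic basis of some order, or a set with at least `N ^ ε` elements below `N` for
arbitrarily large `N`, and suppose that `r_{A,h}(n) ≤ n ^ {o(1)}` for some `h ≥ 2`; for instance, let
`A` be a counterexample to the conjecture of Erdős and Turán.  Then the following holds for every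
prime `p`.

1. For all `j ≥ 1` the sequence `R_{A,j}(n) mod p` is not `p`-automatic.
2. If `j` is a power of `p`, it is not `q`-automatic for any `q ≥ 2`.  For instance (`j = p = 2`) the
   parity of `R_{A,2}` is not `q`-automatic.
3. The power series `F_A = ∑_{a ∈ A} z ^ a` over `F_p` is transcendental over `F_p(z)`, and so is
   `P(z, F_A)` for every polynomial `P(z, T)` of positive degree in `T`.

So the conjecture holds, for every `h ≥ 2`, for all asymptotic bases `A` of order `h` such that for
some prime `p` and some `j ≥ 1` (not necessarily `j = h`) the sequence `R_{A,j}(n) mod p` is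
`p`-automatic, for instance eventually periodic; and then `r_{A,h}(n) ≥ n ^ c` for infinitely many
`n`, with some `c > 0`.

Method.  Both halves of Christol's theorem (`Pool.Agent.Helper68K9.ET.Chr1`, `Chr2`): if
`R_{A,j} mod p` is `p`-automatic, then `F_A ^ j` is algebraic, hence `F_A` is algebraic, hence the set
`A` itself is `p`-automatic.  For 2: `R_{A,p^s}(p^s n)` is congruent modulo `p` to the indicator
function of `A`.  A set with finitely many sections modulo the powers of `q` has `O((log N) ^ C)`
elements below `N`, or some nonempty section returns to itself along two different digit strings of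
the same length (`Grow`); then `A` contains affine images of all the numbers whose digits in the base
`q ^ k` are `u` or `v`, and complementary choices of the digits have a constant sum (`Reps`).
-/

set_option autoImplicit false

namespace Pool.Agent.Results.MP_d5a1e1_nt.RepresentationsModP

open Filter

/-- `r_{A,h}(n)`: the number of multisets of `h` elements of `A` with sum `n`. -/
noncomputable def rep (A : Set ℕ) (h n : ℕ) : ℕ :=
  Set.ncard {s : Multiset ℕ | Multiset.card s = h ∧ (∀ a ∈ s, a ∈ A) ∧ s.sum = n}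

/-- `R_{A,j}(n)`: the number of `j`-tuples of elements of `A` with sum `n`. -/
noncomputable def ordRep (A : Set ℕ) (j n : ℕ) : ℕ :=
  Set.ncard {a : Fin j → ℕ | (∀ i, a i ∈ A) ∧ ∑ i, a i = n}

/-- `A` is an asymptotic basis of order `h`. -/
def IsBasis (A : Set ℕ) (h : ℕ) : Prop :=
  ∃ n₀ : ℕ, ∀ n : ℕ, n₀ ≤ n → ∃ s : Multiset ℕ, Multiset.card s = h ∧ (∀ a ∈ s, a ∈ A) ∧ s.sum = n

/-- The sequence `s` is `q`-automatic: its `q`-kernel, the set of the sequences
`n ↦ s (q ^ k n + u)` with `k ≥ 0` and `0 ≤ u < q ^ k`, is finite. -/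
def Automatic (q : ℕ) {α : Type} (s : ℕ → α) : Prop :=
  {t : ℕ → α | ∃ k u : ℕ, u < q ^ k ∧ t = fun n => s (q ^ k * n + u)}.Finite

open Classical in
/-- The power series `F_A = ∑_{a ∈ A} z ^ a` over `F_p`. -/
noncomputable def gen (p : ℕ) (A : Set ℕ) : PowerSeries (ZMod p) :=
  PowerSeries.mk fun n => if n ∈ A then 1 else 0

/-- Let `p` be a prime, `q ≥ 2`, and let `A` be a set of natural numbers such that one of the
following holds: the sequence `R_{A,j}(n) mod p` is `q`-automatic, for some `j ≥ 1` if `q = p`, and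
for some power `j` of `p` in general; or `q = p` and `P(z, F_A)` is algebraic over `F_p(z)` for some
polynomial `P(z, T)` over `F_p` of positive degree in `T`.  Then the set `A` is `q`-automatic; and if
`A` is an asymptotic basis of some order, or has at least `N ^ ε` elements below `N` for some `ε > 0`
and arbitrarily large `N`, then there is `c > 0` such that, for every `h ≥ 2`, `r_{A,h}(n) ≥ n ^ c`
for infinitely many `n`. -/
theorem result (p : ℕ) [Fact p.Prime] (q : ℕ) (hq : 2 ≤ q) (A : Set ℕ)
    (hA : (q = p ∧ ∃ j : ℕ, 1 ≤ j ∧ Automatic q (fun n => (ordRep A j n : ZMod p))) ∨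
      (∃ s : ℕ, Automatic q (fun n => (ordRep A (p ^ s) n : ZMod p))) ∨
      (q = p ∧ ∃ P : Polynomial (Polynomial (ZMod p)), P.natDegree ≠ 0 ∧
        IsAlgebraic (Polynomial (ZMod p)) (Polynomial.aeval (gen p A) P))) :
    Automatic q (fun n => n ∈ A) ∧
    (((∃ k : ℕ, 1 ≤ k ∧ IsBasis A k) ∨
        ∃ ε : ℝ, 0 < ε ∧ ∃ᶠ N : ℕ in atTop, (N : ℝ) ^ ε ≤ ((A ∩ Set.Iio N).ncard : ℝ)) →
      ∃ c : ℝ, 0 < c ∧ ∀ h : ℕ, 2 ≤ h → ∃ᶠ n : ℕ in atTop, (n : ℝ) ^ c ≤ (rep A h n : ℝ)) := by
  have hK : (Pool.Agent.Helper68K9.ET.ker q A).Finite := by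
    rcases hA with ⟨rfl, j, hj, hs⟩ | ⟨s, hs⟩ | ⟨rfl, P, hP, hP'⟩
    · apply Pool.Agent.Helper68K9.ET.ker_finite_of_algebraic
      have h1 : Pool.Agent.Helper68K9.ET.FinKer q (fun n => (ordRep A j n : ZMod q)) := hs
      have h2 := Pool.Agent.Helper68K9.ET.algebraic_of_finKer h1
      have h3 : PowerSeries.mk (fun n => (ordRep A j n : ZMod q)) =
          Pool.Agent.Helper68K9.ET.gf q A ^ j := by
        ext n
        rw [PowerSeries.coeff_mk, Pool.Agent.Helper68K9.ET.coeff_gf_pow]
        rfl
      rw [h3] at h2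
      exact IsAlgebraic.of_pow (by omega) h2
    · exact Pool.Agent.Helper68K9.ET.ker_finite_of_frob hq hs
    · apply Pool.Agent.Helper68K9.ET.ker_finite_of_algebraic
      have h1 : Pool.Agent.Helper68K9.ET.gf q A = gen q A := rfl
      rw [h1]
      refine IsAlgebraic.of_aeval P hP ?_ hP'
      rw [mem_nonZeroDivisors_iff_ne_zero]
      intro h0
      rw [Polynomial.leadingCoeff_eq_zero] at h0
      rw [h0] at hP
      simp at hP
  refine ⟨Pool.Agent.Helper68K9.ET.finKer_of_ker hK, fun hgr => ?_⟩
  have hgr' : ∃ ε : ℝ, 0 < ε ∧ ∃ᶠ N : ℕ in atTop, (N : ℝ) ^ ε ≤ ((A ∩ Set.Iio N).ncard : ℝ) := by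
    rcases hgr with ⟨k, hk, n₀, hb⟩ | h
    · have hk0 : (0 : ℝ) < k := by exact_mod_cast (by omega : 0 < k)
      refine ⟨1 / (2 * k), by positivity, ?_⟩
      apply Pool.Agent.W227.FC.freq_of_basis hk
      · filter_upwards [eventually_ge_atTop n₀] with n hn
        obtain ⟨s, h1, h2, h3⟩ := hb n hn
        exact Pool.Agent.W227.FC.tuple_of_multi h1 h2 h3
      · rw [div_lt_div_iff₀ (by positivity) hk0]
        linarith
    · exact h
  obtain ⟨ε, hε, hN⟩ := hgr'
  exact Pool.Agent.Helper68K9.ET.power_of_double hq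
    (Pool.Agent.Helper68K9.ET.double_of_growth hq hK hε hN)

end Pool.Agent.Results.MP_d5a1e1_nt.RepresentationsModP
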